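import Pool.Agent.Q231.VT.Mom
import Pool.Agent.Q231.VT.Samp

/-!
# Kösters' conjecture for a few shifts implies it for all shifts

For fixed `k ≥ 1` let `Q_k(α, T)` be the normalised shifted moment of the problem, for complex shifts `α`. If the limits of
`Q_k(α, T)` exist for `α = 0` and for the `α` in a set which has an accumulation point, or which meets every real interval
of length `θ / k` with some `θ < π`, then the limits exist for all complex `α`, locally uniformly, and the limit is an entire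
function `c` with `|c(α)| ≤ K e^(2k max(Im α, 0))`. For such a function `c` the formulas `Q_k(α, T) → c(α)` for all `α` are
also equivalent to the convergence of all derivatives at `α = 0` to those of `c`.

Proof. The moment of `ζ` on the lines at distance `O(1 / log T)` of the critical line is bounded by the one on the critical
line (`Q85.Mom.line`, summed over windows), so the functions `Q_k(·, T)` are bounded on discs; limits along ultrafilters are
entire functions with the growth above. They are determined by the values on the set: by the identity theorem in the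
first case; in the second case by the sampling inequality for functions of exponential type (`Q85.Mom.LS2`) and the
Phragmén-Lindelöf principle.
-/

set_option autoImplicit false

open Complex Set Filter Topology MeasureTheory

namespace Pool.Agent.Results.MP_069854_nt.FewShifts

/-- The normalised shifted moment `Q_k(α, T)` of the problem, for complex shifts `α`. -/
noncomputable def Q (k : ℕ) (α : ℂ) (T : ℝ) : ℂ :=
  (T : ℂ)⁻¹ * ((Real.log T : ℂ) ^ (k ^ 2))⁻¹ *
    ∫ t in (0:ℝ)..T, riemannZeta (1 / 2 + I * α / Real.log T + I * t) ^ k *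
      riemannZeta (1 / 2 + I * α / Real.log T - I * t) ^ k

/-- `c` is an entire function with `|c(α)| ≤ K e^(2k max(Im α, 0))` for some `K`. -/
def Regular (k : ℕ) (c : ℂ → ℂ) : Prop :=
  Differentiable ℂ c ∧ ∃ K : ℝ, ∀ α : ℂ, ‖c α‖ ≤ K * Real.exp (2 * k * max α.im 0)

/-- The set `A` has an accumulation point, or it meets every real interval of length `θ / k`, for some `θ < π`. -/
def Determining (k : ℕ) (A : Set ℂ) : Prop :=
  (∃ a : ℂ, AccPt a (𝓟 A)) ∨
    ∃ θ : ℝ, θ < Real.pi ∧ ∀ x : ℝ, ∃ u : ℝ, x ≤ u ∧ u ≤ x + θ / k ∧ (u : ℂ) ∈ A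

section proofs

open Pool.Agent.Q231

lemma reg_uniq {k : ℕ} (hk : 1 ≤ k) {A : Set ℂ} (hA : Determining k A) {g₁ g₂ : ℂ → ℂ} (h1 : Regular k g₁)
    (h2 : Regular k g₂) (h : ∀ z ∈ A, g₁ z = g₂ z) : g₁ = g₂ := by
  rcases hA with ⟨a, ha⟩ | ⟨θ, hθ, hA⟩
  · exact VT.eq_of_acc h1.1 h2.1 ha h
  have hk0 : (0 : ℝ) < k := by exact_mod_cast hk
  have hkC : (k : ℂ) ≠ 0 := by exact_mod_cast hk0.ne'
  obtain ⟨K₁, hK₁⟩ := h1.2
  obtain ⟨K₂, hK₂⟩ := h2.2
  have hd1 := h1.1
  have hd2 := h2.1
  have key := VT.samp_uniq (F := fun w => cexp (I * w) * (g₁ (w / k) - g₂ (w / k))) (m₀ := K₁ + K₂) (θ := θ) ?_ ?_ hθ ?_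
  · funext z
    have h3 := key (z * k)
    rw [mul_div_cancel_right₀ _ hkC] at h3
    have h4 := (mul_eq_zero.1 h3).resolve_left (Complex.exp_ne_zero _)
    exact sub_eq_zero.1 h4
  · exact (by fun_prop : Differentiable ℂ fun w : ℂ => cexp (I * w)).mul
      ((hd1.comp (by fun_prop)).sub (hd2.comp (by fun_prop)))
  · intro w
    have e1 : (w / (k : ℂ)).im = w.im / k := by
      rw [show (k : ℂ) = ((k : ℝ) : ℂ) by push_cast; rfl, Complex.div_ofReal_im]
    have e2 : 2 * (k : ℝ) * max (w / (k : ℂ)).im 0 = 2 * max w.im 0 := by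
      rw [e1]
      rcases le_or_gt 0 w.im with h3 | h3
      · rw [max_eq_left (by positivity), max_eq_left h3]
        field_simp
      · rw [max_eq_right (div_nonpos_of_nonpos_of_nonneg h3.le hk0.le), max_eq_right h3.le]
        ring
    have h3 := hK₁ (w / k)
    have h4 := hK₂ (w / k)
    rw [e2] at h3 h4
    rw [norm_mul, Complex.norm_exp]
    have e3 : (I * w).re = -w.im := by simp
    rw [e3]
    have h5 : ‖g₁ (w / k) - g₂ (w / k)‖ ≤ (K₁ + K₂) * Real.exp (2 * max w.im 0) := by
      refine (norm_sub_le _ _).trans ?_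
      linarith
    have e4 : Real.exp (-w.im) * Real.exp (2 * max w.im 0) = Real.exp |w.im| := by
      rw [← Real.exp_add]
      congr 1
      rcases le_or_gt 0 w.im with h6 | h6
      · rw [max_eq_left h6, abs_of_nonneg h6]; ring
      · rw [max_eq_right h6.le, abs_of_neg h6]; ring
    calc Real.exp (-w.im) * ‖g₁ (w / k) - g₂ (w / k)‖
        ≤ Real.exp (-w.im) * ((K₁ + K₂) * Real.exp (2 * max w.im 0)) :=
          mul_le_mul_of_nonneg_left h5 (Real.exp_pos _).le
      _ = (K₁ + K₂) * (Real.exp (-w.im) * Real.exp (2 * max w.im 0)) := by ring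
      _ = _ := by rw [e4]
  · intro x
    obtain ⟨u, hu1, hu2, hu3⟩ := hA (x / k)
    refine ⟨u * k, ?_, ?_, ?_⟩
    · rwa [div_le_iff₀ hk0] at hu1
    · rw [← add_div, le_div_iff₀ hk0] at hu2
      exact hu2
    · have e : ((u * k : ℝ) : ℂ) / (k : ℂ) = (u : ℂ) := by
        push_cast
        field_simp
      simp only [e, h _ hu3, sub_self, mul_zero]

lemma core {k : ℕ} (hk : 1 ≤ k) {B : ℝ} (hB : VT.MB k B) {A : Set ℂ} (hA : Determining k A)
    (h : ∀ α ∈ A, ∃ w : ℂ, Tendsto (fun T => Q k α T) atTop (𝓝 w)) :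
    ∃ c : ℂ → ℂ, Regular k c ∧ ∀ α, Tendsto (fun T => Q k α T) atTop (𝓝 (c α)) := by
  have hb := VT.Q_bdd hk hB
  refine VT.vitali_uniq (f := fun T α => Q k α T) hb (A := A) (Regular k) ?_ ?_ h
  · intro U hU g hg
    exact ⟨VT.diff_lim hb hU hg, VT.Q_growth hk hB hU hg⟩
  · intro g₁ g₂ h1 h2 h3
    exact reg_uniq hk hA h1 h2 h3

lemma acc_real : ∃ a : ℂ, AccPt a (𝓟 (range fun x : ℝ => (x : ℂ))) := by
  refine ⟨0, ?_⟩
  have h1 : Tendsto (fun x : ℝ => (x : ℂ)) (𝓝[≠] 0) (𝓝[≠] 0 ⊓ 𝓟 (range fun x : ℝ => (x : ℂ))) := by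
    refine tendsto_inf.2 ⟨?_, tendsto_principal.2 (Eventually.of_forall fun x => mem_range_self x)⟩
    refine tendsto_nhdsWithin_iff.2 ⟨?_, ?_⟩
    · have := Complex.continuous_ofReal.tendsto 0
      rw [Complex.ofReal_zero] at this
      exact this.mono_left nhdsWithin_le_nhds
    · filter_upwards [self_mem_nhdsWithin] with x hx
      simpa using hx
  exact h1.neBot

end proofs

/-- **A few shifts suffice.** Let `k ≥ 1` and let `A ∋ 0` have an accumulation point or meet every real interval of length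
`θ / k`, for some `θ < π`. (1) If `Q_k(α, T)` has a limit for all `α` in `A`, then it converges for all complex `α`, locally
uniformly, and the limit is an entire function `c` with `|c(α)| ≤ K e^(2k max(Im α, 0))`. (2) For each such function `c` the
following are equivalent: `Q_k(α, T) → c(α)` for all real `α`; the same for all `α` in `A`; locally uniform
convergence for complex `α`; the convergence of all derivatives at `α = 0` to those of `c`. -/
theorem result (k : ℕ) (hk : 1 ≤ k) (A : Set ℂ) (h0 : (0 : ℂ) ∈ A) (hA : Determining k A) :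
    ((∀ α ∈ A, ∃ w : ℂ, Tendsto (fun T => Q k α T) atTop (𝓝 w)) →
      ∃ c : ℂ → ℂ, Regular k c ∧ TendstoLocallyUniformly (fun T α => Q k α T) c atTop) ∧
    ∀ c : ℂ → ℂ, Regular k c → List.TFAE [
      ∀ α : ℝ, Tendsto (fun T => Q k α T) atTop (𝓝 (c α)),
      ∀ α ∈ A, Tendsto (fun T => Q k α T) atTop (𝓝 (c α)),
      TendstoLocallyUniformly (fun T α => Q k α T) c atTop,
      ∀ n : ℕ, Tendsto (fun T => iteratedDeriv n (fun α => Q k α T) 0) atTop (𝓝 (iteratedDeriv n c 0))] := by
  have fin : ∀ (A : Set ℂ), (0 : ℂ) ∈ A → Determining k A → ∀ c : ℂ → ℂ, Regular k c →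
      (∀ α ∈ A, Tendsto (fun T => Q k α T) atTop (𝓝 (c α))) →
        TendstoLocallyUniformly (fun T α => Q k α T) c atTop := by
    intro A h0 hA c hc h
    obtain ⟨B, hB⟩ := Pool.Agent.Q231.VT.MB_of (h 0 h0)
    obtain ⟨c', hc', hlim⟩ := core hk hB hA fun α hα => ⟨_, h α hα⟩
    have e : c' = c := reg_uniq hk hA hc' hc fun z hz => tendsto_nhds_unique (hlim z) (h z hz)
    rw [← e]
    exact Pool.Agent.Q231.VT.loc_unif (Pool.Agent.Q231.VT.Q_bdd hk hB) hlim
  have pt : ∀ c : ℂ → ℂ, TendstoLocallyUniformly (fun T α => Q k α T) c atTop → ∀ α,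
      Tendsto (fun T => Q k α T) atTop (𝓝 (c α)) := fun c h α =>
    (tendstoLocallyUniformlyOn_univ.2 h).tendsto_at (mem_univ α)
  refine ⟨fun h => ?_, fun c hc => ?_⟩
  · obtain ⟨w, hw⟩ := h 0 h0
    obtain ⟨B, hB⟩ := Pool.Agent.Q231.VT.MB_of hw
    obtain ⟨c, hc, hlim⟩ := core hk hB hA h
    exact ⟨c, hc, Pool.Agent.Q231.VT.loc_unif (Pool.Agent.Q231.VT.Q_bdd hk hB) hlim⟩
  · tfae_have 1 → 3 := by
      intro h
      refine fin (range fun x : ℝ => (x : ℂ)) ⟨0, by simp⟩ (Or.inl acc_real) c hc ?_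
      rintro _ ⟨x, rfl⟩
      exact h x
    tfae_have 2 → 3 := fin A h0 hA c hc
    tfae_have 3 → 1 := fun h α => pt c h α
    tfae_have 3 → 2 := fun h α _ => pt c h α
    tfae_have 3 → 4 := by
      intro h n
      obtain ⟨B, hB⟩ := Pool.Agent.Q231.VT.MB_of (pt c h 0)
      exact Pool.Agent.Q231.VT.derivs (Pool.Agent.Q231.VT.Q_bdd hk hB) le_rfl (pt c h) n
    tfae_have 4 → 3 := by
      intro h
      have h1 := h 0
      simp only [iteratedDeriv_zero] at h1
      obtain ⟨B, hB⟩ := Pool.Agent.Q231.VT.MB_of h1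
      have hb := Pool.Agent.Q231.VT.Q_bdd hk hB
      exact Pool.Agent.Q231.VT.loc_unif hb (Pool.Agent.Q231.VT.of_derivs hb hc.1 h)
    tfae_finish

end Pool.Agent.Results.MP_069854_nt.FewShifts
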