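import Mathlib
import Pool.Agent.Q85.Mom.Rolle

set_option autoImplicit false

/-!
# The phase in Kösters' conjecture

For `|α| ≤ log T` and `[a, b] ⊆ [T+1, 8T-1]` the shifted moment over `[a, b]` times `e^{ikα}` is real
up to `(4k|α|/log T)` times the unshifted moment.
-/

open Filter Topology Set MeasureTheory

namespace Pool.Agent.Results.MP_069854_nt.PhaseOfShiftedMoments

/-- the shifted moment of the problem, over `[a, b]` -/
noncomputable def S (k : ℕ) (α T a b : ℝ) : ℂ :=
  ∫ t in a..b, riemannZeta (1 / 2 + Complex.I * α / Real.log T + Complex.I * t) ^ k *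
    riemannZeta (1 / 2 + Complex.I * α / Real.log T - Complex.I * t) ^ k

/-- the `2k`-th moment over `[a, b]` -/
noncomputable def M (k : ℕ) (a b : ℝ) : ℝ :=
  ∫ t in a..b, ‖riemannZeta (1 / 2 + Complex.I * t)‖ ^ (2 * k)

open Pool.Agent.Q85.Mom Complex Pool.Agent.W188

lemma z_eq (t : ℝ) : riemannZeta (1 / 2 + I * t) = z t := by
  unfold z
  rw [mul_comm]

lemma fac1 (α T t : ℝ) : riemannZeta (1 / 2 + I * α / Real.log T + I * t) =
    z (t + α / Real.log T) := by
  unfold z
  congr 1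
  push_cast
  ring

lemma fac2 (α T t : ℝ) : riemannZeta (1 / 2 + I * α / Real.log T - I * t) =
    (starRingEnd ℂ) (z (t - α / Real.log T)) := by
  have e1 : (1 / 2 + I * α / Real.log T - I * t : ℂ) =
      (starRingEnd ℂ) (1 / 2 + ((t - α / Real.log T : ℝ) : ℂ) * I) := by
    apply Complex.ext
    · simp
    · simp
  rw [e1, riemannZeta_conj]
  rfl

/-- the increment of the phase -/
lemma ph_inc {T x y : ℝ} (hT : 100 ≤ T) (hx : T ≤ x) (hxy : x ≤ y) (hy : y ≤ 8 * T) :
    |ph y - ph x - (y - x) * (Real.log T / 2)| ≤ 2 * (y - x) := by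
  have hT0 : 0 < T := by linarith
  have h1 : ∀ t ∈ Icc x y, HasDerivWithinAt (fun t => ph t - t * (Real.log T / 2))
      (GP.lamE t / 2 - Real.log T / 2) (Icc x y) t := by
    intro t _
    have h2 := (ph_der t).sub ((hasDerivAt_id t).mul_const (Real.log T / 2))
    simp only [id, one_mul] at h2
    exact h2.hasDerivWithinAt
  have h3 := (convex_Icc x y).norm_image_sub_le_of_norm_hasDerivWithin_le (C := 2) h1
    (fun t ht => by
      rw [Real.norm_eq_abs]
      exact lamE_near hT (hx.trans ht.1) (ht.2.trans hy)) (left_mem_Icc.2 hxy) (right_mem_Icc.2 hxy)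
  rw [Real.norm_eq_abs, Real.norm_eq_abs, abs_of_nonneg (by linarith : 0 ≤ y - x)] at h3
  have e : ph y - y * (Real.log T / 2) - (ph x - x * (Real.log T / 2)) =
      ph y - ph x - (y - x) * (Real.log T / 2) := by ring
  rwa [e] at h3

/-- `z(x) conj z(y)` is real up to the phase -/
lemma cross {x y : ℝ} (hx : 100 ≤ x) (hy : 100 ≤ y) :
    ∃ r : ℝ, z x * (starRingEnd ℂ) (z y) = cexp (((ph y - ph x : ℝ) : ℂ) * I) * r ∧
      |r| = ‖z x‖ * ‖z y‖ := by
  obtain ⟨c₀, hc₀, hc₁⟩ := Pool.Agent.Q85.Mom.exists_root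
  have hrx := (Complex.conj_eq_iff_re.1 (HZ_real hc₀ hc₁ hx)).symm
  have hry := (Complex.conj_eq_iff_re.1 (HZ_real hc₀ hc₁ hy)).symm
  have h4 : ∀ t : ℝ, (starRingEnd ℂ) (cexp (ph t * I)) = cexp (-(ph t * I)) := by
    intro t
    rw [← Complex.exp_conj]
    simp
  have h5 : (starRingEnd ℂ) c₀ * c₀ = 1 := by
    rw [mul_comm, Complex.mul_conj, Complex.normSq_eq_norm_sq, hc₁]
    simp
  have h6 : ∀ t : ℝ, z t = (starRingEnd ℂ) c₀ * cexp (-(ph t * I)) * HZ c₀ t := by
    intro t
    unfold HZ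
    have h7 : cexp (-(ph t * I)) * cexp (ph t * I) = 1 := by
      rw [← Complex.exp_add, neg_add_cancel, Complex.exp_zero]
    linear_combination (-(cexp (-(ph t * I)) * cexp (ph t * I) * z t)) * h5 - z t * h7
  have hn : ∀ t : ℝ, ‖HZ c₀ t‖ = ‖z t‖ := by
    intro t
    unfold HZ
    rw [norm_mul, hc₁, one_mul, norm_mul, Complex.norm_exp_ofReal_mul_I, one_mul]
  refine ⟨(HZ c₀ x).re * (HZ c₀ y).re, ?_, ?_⟩
  · rw [h6 x, h6 y, map_mul, map_mul, ← Complex.exp_conj, Complex.conj_conj, HZ_real hc₀ hc₁ hy]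
    have e1 : (starRingEnd ℂ) (-(ph y * I)) = ph y * I := by simp
    rw [e1]
    have e2 : cexp (((ph y - ph x : ℝ) : ℂ) * I) = cexp (-(ph x * I)) * cexp (ph y * I) := by
      rw [← Complex.exp_add]
      congr 1
      push_cast
      ring
    rw [e2, Complex.ofReal_mul]
    nth_rewrite 1 [hrx]
    nth_rewrite 1 [hry]
    linear_combination (cexp (-(ph x * I)) * cexp (ph y * I) * ((HZ c₀ x).re : ℂ) *
      ((HZ c₀ y).re : ℂ)) * h5
  · rw [abs_mul, ← hn x, ← hn y]
    congr 1
    · rw [hrx, Complex.ofReal_re, Complex.norm_real, Real.norm_eq_abs]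
    · rw [hry, Complex.ofReal_re, Complex.norm_real, Real.norm_eq_abs]

theorem result : ∃ T₀ : ℝ, ∀ (k : ℕ) (α T a b : ℝ), T₀ ≤ T → |α| ≤ Real.log T →
    T + 1 ≤ a → a ≤ b → b + 1 ≤ 8 * T →
    |(cexp (I * (k * α)) * S k α T a b).im| ≤
      4 * k * |α| / Real.log T * M k (a - 1) (b + 1) := by
  refine ⟨100, fun k α T a b hT hα ha hab hb => ?_⟩
  have hT0 : 0 < T := by linarith
  have hℓ1 : 1 ≤ Real.log T := by
    have h1 : Real.log (Real.exp 1) ≤ Real.log T := by
      apply Real.log_le_log (Real.exp_pos _)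
      have := Real.exp_one_lt_d9
      linarith
    rwa [Real.log_exp] at h1
  set ℓ : ℝ := Real.log T with hℓ
  have hℓ0 : 0 < ℓ := by linarith
  set u : ℝ := α / ℓ with hu
  have hu1 : |u| ≤ 1 := by
    rw [hu, abs_div, abs_of_pos hℓ0]
    exact (div_le_one hℓ0).2 hα
  have huu := abs_le.1 hu1
  -- pointwise
  have hpt : ∀ t ∈ Icc a b, |(cexp (I * (k * α)) *
      (z (t + u) ^ k * (starRingEnd ℂ) (z (t - u)) ^ k)).im| ≤
      4 * k * |u| * (‖z (t + u)‖ ^ k * ‖z (t - u)‖ ^ k) := by
    intro t ht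
    obtain ⟨r, hr1, hr2⟩ := cross (x := t + u) (y := t - u) (by linarith [ht.1]) (by linarith [ht.1])
    have h1 : |ph (t - u) - ph (t + u) + u * ℓ| ≤ 4 * |u| := by
      rcases le_total 0 u with h | h
      · have h2 := ph_inc (T := T) (x := t - u) (y := t + u) hT (by linarith [ht.1]) (by linarith)
          (by linarith [ht.2])
        rw [abs_of_nonneg h]
        have e : ph (t - u) - ph (t + u) + u * ℓ =
            -(ph (t + u) - ph (t - u) - (t + u - (t - u)) * (Real.log T / 2)) := by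
          rw [hℓ]; ring
        rw [e, abs_neg]
        linarith
      · have h2 := ph_inc (T := T) (x := t + u) (y := t - u) hT (by linarith [ht.1]) (by linarith)
          (by linarith [ht.2])
        rw [abs_of_nonpos h]
        have e : ph (t - u) - ph (t + u) + u * ℓ =
            ph (t - u) - ph (t + u) - (t - u - (t + u)) * (Real.log T / 2) := by
          rw [hℓ]; ring
        rw [e]
        linarith
    set ψ : ℝ := ph (t - u) - ph (t + u) + u * ℓ with hψ
    have h2 : cexp (I * (k * α)) * (z (t + u) ^ k * (starRingEnd ℂ) (z (t - u)) ^ k) =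
        ((r ^ k : ℝ) : ℂ) * cexp (((k * ψ : ℝ) : ℂ) * I) := by
      rw [← mul_pow, hr1, mul_pow, ← Complex.exp_nat_mul]
      have e1 : cexp (I * (k * α)) * (cexp (k * (((ph (t - u) - ph (t + u) : ℝ) : ℂ) * I)) *
          (r : ℂ) ^ k) = ((r ^ k : ℝ) : ℂ) * (cexp (I * (k * α)) *
          cexp (k * (((ph (t - u) - ph (t + u) : ℝ) : ℂ) * I))) := by
        push_cast
        ring
      rw [e1, ← Complex.exp_add]
      congr 2
      have e2 : α = u * ℓ := by
        rw [hu]
        field_simp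
      rw [hψ, e2]
      push_cast
      ring
    rw [h2, Complex.im_ofReal_mul, Complex.exp_ofReal_mul_I_im, abs_mul, abs_pow, hr2, mul_pow]
    have h3 : |Real.sin (k * ψ)| ≤ 4 * k * |u| := by
      refine (Real.abs_sin_le_abs (x := k * ψ)).trans ?_
      rw [abs_mul, Nat.abs_cast]
      calc (k : ℝ) * |ψ| ≤ k * (4 * |u|) := mul_le_mul_of_nonneg_left h1 (Nat.cast_nonneg k)
        _ = _ := by ring
    rw [mul_comm]
    exact mul_le_mul_of_nonneg_right h3 (by positivity)
  have cx : Continuous fun t => z (t + u) := z_cont.comp (by fun_prop)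
  have cy : Continuous fun t => z (t - u) := z_cont.comp (by fun_prop)
  have cf : Continuous fun t => cexp (I * (k * α)) *
      (z (t + u) ^ k * (starRingEnd ℂ) (z (t - u)) ^ k) :=
    continuous_const.mul ((cx.pow k).mul ((Complex.continuous_conj.comp cy).pow k))
  have e1 : (cexp (I * (k * α)) * S k α T a b).im = ∫ t in a..b, (cexp (I * (k * α)) *
      (z (t + u) ^ k * (starRingEnd ℂ) (z (t - u)) ^ k)).im := by
    unfold S
    simp only [fac1, fac2]
    rw [← intervalIntegral.integral_const_mul]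
    exact (Complex.imCLM.intervalIntegral_comp_comm (cf.intervalIntegrable (μ := volume) a b)).symm
  rw [e1]
  have cg : Continuous fun t => (cexp (I * (k * α)) *
      (z (t + u) ^ k * (starRingEnd ℂ) (z (t - u)) ^ k)).im := Complex.continuous_im.comp cf
  have ch : Continuous fun t => 4 * k * |u| * (‖z (t + u)‖ ^ k * ‖z (t - u)‖ ^ k) :=
    continuous_const.mul ((cx.norm.pow k).mul (cy.norm.pow k))
  have c1 : Continuous fun t => ‖z (t + u)‖ ^ (2 * k) := cx.norm.pow _
  have c2 : Continuous fun t => ‖z (t - u)‖ ^ (2 * k) := cy.norm.pow _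
  have h1 : |∫ t in a..b, (cexp (I * (k * α)) *
      (z (t + u) ^ k * (starRingEnd ℂ) (z (t - u)) ^ k)).im| ≤
      ∫ t in a..b, 4 * k * |u| * (‖z (t + u)‖ ^ k * ‖z (t - u)‖ ^ k) := by
    refine (intervalIntegral.abs_integral_le_integral_abs hab).trans ?_
    apply intervalIntegral.integral_mono_on hab (cg.abs.intervalIntegrable _ _)
      (ch.intervalIntegrable _ _)
    exact hpt
  refine h1.trans ?_
  have h2 : ∫ t in a..b, 4 * k * |u| * (‖z (t + u)‖ ^ k * ‖z (t - u)‖ ^ k) ≤
      ∫ t in a..b, 4 * k * |u| * ((‖z (t + u)‖ ^ (2 * k) + ‖z (t - u)‖ ^ (2 * k)) / 2) := by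
    have c12 : Continuous fun t => 4 * k * |u| * ((‖z (t + u)‖ ^ (2 * k) + ‖z (t - u)‖ ^ (2 * k)) / 2) :=
      continuous_const.mul ((c1.add c2).div_const 2)
    apply intervalIntegral.integral_mono_on hab (ch.intervalIntegrable _ _)
      (c12.intervalIntegrable _ _)
    intro t _
    apply mul_le_mul_of_nonneg_left _ (by positivity)
    have e2 : ∀ x : ℝ, x ^ (2 * k) = (x ^ k) ^ 2 := fun x => by rw [← pow_mul, mul_comm]
    rw [e2, e2]
    nlinarith [sq_nonneg (‖z (t + u)‖ ^ k - ‖z (t - u)‖ ^ k)]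
  refine h2.trans ?_
  have c0 : Continuous fun t => ‖z t‖ ^ (2 * k) := z_cont.norm.pow _
  have hM : M k (a - 1) (b + 1) = ∫ t in (a - 1)..(b + 1), ‖z t‖ ^ (2 * k) := by
    unfold M
    simp only [z_eq]
  have h3 : ∀ y : ℝ, |y| ≤ 1 → ∫ t in a..b, ‖z (t + y)‖ ^ (2 * k) ≤ M k (a - 1) (b + 1) := by
    intro y hy
    have hyy := abs_le.1 hy
    rw [intervalIntegral.integral_comp_add_right (fun t => ‖z t‖ ^ (2 * k)), hM]
    apply intervalIntegral.integral_mono_interval (by linarith) (by linarith) (by linarith)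
    · exact Filter.Eventually.of_forall fun t => by positivity
    · exact c0.intervalIntegrable _ _
  have h4 := h3 u hu1
  have h5 : ∫ t in a..b, ‖z (t - u)‖ ^ (2 * k) ≤ M k (a - 1) (b + 1) := by
    have := h3 (-u) (by rwa [abs_neg])
    simpa only [← sub_eq_add_neg] using this
  rw [intervalIntegral.integral_const_mul, intervalIntegral.integral_div,
    intervalIntegral.integral_add (c1.intervalIntegrable _ _) (c2.intervalIntegrable _ _)]
  have e3 : 4 * k * |α| / ℓ = 4 * k * |u| := by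
    rw [hu, abs_div, abs_of_pos hℓ0]
    ring
  rw [e3]
  apply mul_le_mul_of_nonneg_left _ (by positivity)
  linarith

end Pool.Agent.Results.MP_069854_nt.PhaseOfShiftedMoments
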