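import Mathlib
import Pool.Agent.Q85.Mom.Shift

set_option autoImplicit false

/-!
# Kösters' shifted moments for small shifts

For `k ≥ 1`, real `α` and `[a, b] ⊆ [T, 8T]` let `S` be the integral over `[a, b]` of
`ζ(1/2 + iα/log T + it)^k ζ(1/2 + iα/log T - it)^k`.  The real part of `e^{ikα} S` lies between `A` and
`A - (k²α²/2)(1 + C/log T)² M`, `A` the average of the `2k`-th moments over the two shifted
intervals, `M` the `2k`-th moment over the interval enlarged by `2 log T`, `C` absolute.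
-/

open Filter Topology Set MeasureTheory

namespace Pool.Agent.Results.MP_069854_nt.SmallShifts

/-- the shifted moment of the problem, over `[a, b]` -/
noncomputable def S (k : ℕ) (α T a b : ℝ) : ℂ :=
  ∫ t in a..b, riemannZeta (1 / 2 + Complex.I * α / Real.log T + Complex.I * t) ^ k *
    riemannZeta (1 / 2 + Complex.I * α / Real.log T - Complex.I * t) ^ k

/-- the `2k`-th moment over `[a, b]` -/
noncomputable def M (k : ℕ) (a b : ℝ) : ℝ :=
  ∫ t in a..b, ‖riemannZeta (1 / 2 + Complex.I * t)‖ ^ (2 * k)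

open Pool.Agent.Q85.Mom Complex

lemma z_eq (t : ℝ) : riemannZeta (1 / 2 + I * t) = z t := by
  unfold z
  rw [mul_comm]

lemma fac1 (lam α T t : ℝ) : riemannZeta (1 / 2 + I * α / Real.log T + I * t) =
    cexp (((-(lam * (t + α / Real.log T)) : ℝ) : ℂ) * I) * ff lam (t + α / Real.log T) := by
  unfold ff
  rw [← mul_assoc, ← Complex.exp_add]
  have e : ((-(lam * (t + α / Real.log T)) : ℝ) : ℂ) * I + ((lam * (t + α / Real.log T) : ℝ) : ℂ) * I = 0 := by
    push_cast; ring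
  rw [e, Complex.exp_zero, one_mul]
  unfold z
  congr 1
  push_cast
  ring

lemma fac2 (lam α T t : ℝ) : riemannZeta (1 / 2 + I * α / Real.log T - I * t) =
    cexp (((lam * (t - α / Real.log T) : ℝ) : ℂ) * I) *
      (starRingEnd ℂ) (ff lam (t - α / Real.log T)) := by
  have e1 : (1 / 2 + I * α / Real.log T - I * t : ℂ) =
      (starRingEnd ℂ) (1 / 2 + ((t - α / Real.log T : ℝ) : ℂ) * I) := by
    apply Complex.ext
    · simp
    · simp
  rw [e1, riemannZeta_conj]
  unfold ff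
  rw [map_mul, ← Complex.exp_conj, map_mul, Complex.conj_ofReal, Complex.conj_I, ← mul_assoc,
    ← Complex.exp_add]
  have e : ((lam * (t - α / Real.log T) : ℝ) : ℂ) * I +
      ((lam * (t - α / Real.log T) : ℝ) : ℂ) * -I = 0 := by ring
  rw [e, Complex.exp_zero, one_mul]
  rfl

/-- `f^k` and its derivative -/
lemma pow_der (lam : ℝ) (k : ℕ) (t : ℝ) : HasDerivAt (fun t => ff lam t ^ k)
    (k * ff lam t ^ (k - 1) * ff1 lam t) t := (ff_der lam t).fun_pow k

lemma re_id (x y : ℂ) : (x * (starRingEnd ℂ) y).re = (‖x‖ ^ 2 + ‖y‖ ^ 2 - ‖x - y‖ ^ 2) / 2 := by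
  rw [← Complex.normSq_eq_norm_sq, ← Complex.normSq_eq_norm_sq, ← Complex.normSq_eq_norm_sq,
    Complex.normSq_sub]
  ring

theorem result : ∃ C T₀ : ℝ, 0 < C ∧ ∀ (k : ℕ) (α T a b : ℝ), 1 ≤ k → |α| ≤ Real.log T → T₀ ≤ T →
    T + 1 ≤ a → a + C ^ (2 * k) ≤ b → b + 1 ≤ 8 * T →
    (cexp (I * (k * α)) * S k α T a b).re ≤
      (M k (a + α / Real.log T) (b + α / Real.log T) +
        M k (a - α / Real.log T) (b - α / Real.log T)) / 2 ∧
    (M k (a + α / Real.log T) (b + α / Real.log T) +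
        M k (a - α / Real.log T) (b - α / Real.log T)) / 2 -
      (k * α) ^ 2 / 2 * (1 + C / Real.log T) ^ 2 *
        M k (a - 2 * Real.log T) (b + 2 * Real.log T) ≤
      (cexp (I * (k * α)) * S k α T a b).re := by
  obtain ⟨C, T₀, hC, hT₀, hB⟩ := blk
  refine ⟨2 * C, T₀, by linarith, fun k α T a b hk hα hT ha hab hb => ?_⟩
  have hk0 : (1 : ℝ) ≤ k := by exact_mod_cast hk
  have hkp : (0 : ℝ) < k := by linarith
  have hT3 : 3 ≤ T := hT₀.trans hT
  have hℓ1 : 1 ≤ Real.log T := by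
    have h1 : Real.log (Real.exp 1) ≤ Real.log T := by
      apply Real.log_le_log (Real.exp_pos _)
      have := Real.exp_one_lt_d9
      linarith
    rwa [Real.log_exp] at h1
  set ℓ : ℝ := Real.log T with hℓ
  set u : ℝ := |α| / ℓ with hu
  have hu0 : 0 ≤ u := by positivity
  have hu1 : u ≤ 1 := (div_le_one (by linarith)).2 hα
  have hp : (1 : ℝ) ≤ 2 * k := by linarith
  have hp0 : (0 : ℝ) < 2 * k := by linarith
  have hrp : C ^ (2 * (k : ℝ)) = C ^ (2 * k) := by
    rw [← Real.rpow_natCast]; push_cast; rfl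
  have hCp : C ^ (2 * k) ≤ (2 * C) ^ (2 * k) := pow_le_pow_left₀ (by linarith) (by linarith) _
  have hCp0 : 0 < C ^ (2 * k) := by positivity
  have hab' : a ≤ b := by linarith
  obtain ⟨hn1, -, h1, -⟩ := hB (2 * k) T (a - u) (b + u) (ℓ / 2) hp hT (by linarith)
    (by rw [hrp]; linarith) (by linarith) (by linarith) (by linarith)
  rw [show ℓ - ℓ / 2 = ℓ / 2 by ring, max_self] at h1
  set lam : ℝ := ℓ / 2 with hlam
  set q : ℝ := lam + C with hq
  have hq0 : 0 ≤ q := by positivity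
  set n0 := nrm (2 * k) (a - 2 * ℓ) (b + 2 * ℓ) z with hn0
  have hn00 : 0 ≤ n0 := nrm_nonneg (by linarith) _
  have hmono : nrm (2 * k) (a - u - ℓ) (b + u + ℓ) z ≤ n0 :=
    nrm_interval hp0 (by linarith) (by linarith) (by linarith) z_cont
  have hn1' : nrm (2 * k) (a - u) (b + u) z ≤ n0 :=
    (nrm_interval hp0 (by linarith) (by linarith) (by linarith) z_cont).trans hmono
  have h1' : nrm (2 * k) (a - u) (b + u) (ff1 lam) ≤ q * n0 := by
    rw [nrm_ff1]
    exact h1.trans (mul_le_mul_of_nonneg_left hmono hq0)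
  have hfc := ff_cont lam
  have hf1c := ff1_cont lam
  -- moments
  have hMM : ∀ x y : ℝ, x ≤ y → M k x y = nrm (2 * k) x y z ^ (2 * (k : ℝ)) := by
    intro x y hxy
    rw [nrm_pow hp0 hxy]
    unfold M
    simp only [z_eq]
    congr 1
    funext t
    rw [← Real.rpow_natCast]
    push_cast
    rfl
  -- the function `F = f^k`
  set F : ℝ → ℂ := fun t => ff lam t ^ k with hF
  set F' : ℝ → ℂ := fun t => k * ff lam t ^ (k - 1) * ff1 lam t with hF'
  have hFd : ∀ t, HasDerivAt F (F' t) t := fun t => pow_der lam k t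
  have hFc : Continuous F := hfc.pow k
  have hF'c : Continuous F' := (continuous_const.mul (hfc.pow (k - 1))).mul hf1c
  -- L² norm of the derivative
  have hL2 : nrm 2 (a - u) (b + u) F' ^ (2 : ℝ) ≤ (k * q) ^ 2 * n0 ^ (2 * (k : ℝ)) := by
    rw [nrm_pow two_pos (by linarith)]
    have e1 : ∀ t, ‖F' t‖ ^ (2 : ℝ) =
        k ^ 2 * (‖((‖ff lam t‖ ^ 2 : ℝ) : ℂ)‖ ^ ((k : ℝ) - 1) * ‖((‖ff1 lam t‖ ^ 2 : ℝ) : ℂ)‖) := by
      intro t
      rw [Complex.norm_real, Complex.norm_real, Real.norm_eq_abs, Real.norm_eq_abs,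
        abs_of_nonneg (by positivity), abs_of_nonneg (by positivity), Real.rpow_two]
      simp only [hF']
      rw [norm_mul, norm_mul, norm_pow, Complex.norm_natCast]
      have e2 : (‖ff lam t‖ ^ 2) ^ ((k : ℝ) - 1) = (‖ff lam t‖ ^ (k - 1)) ^ 2 := by
        rw [show ((k : ℝ) - 1) = ((k - 1 : ℕ) : ℝ) by rw [Nat.cast_sub hk, Nat.cast_one],
          Real.rpow_natCast, ← pow_mul, ← pow_mul, mul_comm]
      rw [e2]
      ring
    simp only [e1]
    rw [intervalIntegral.integral_const_mul]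
    have c1 : Continuous fun t => ((‖ff lam t‖ ^ 2 : ℝ) : ℂ) :=
      Complex.continuous_ofReal.comp (hfc.norm.pow 2)
    have c2 : Continuous fun t => ((‖ff1 lam t‖ ^ 2 : ℝ) : ℂ) :=
      Complex.continuous_ofReal.comp (hf1c.norm.pow 2)
    have hH := holder hk0 (a := a - u) (b := b + u) (by linarith) c1 c2
    have e3 : ∀ (G : ℝ → ℂ) (t : ℝ), ‖((‖G t‖ ^ 2 : ℝ) : ℂ)‖ ^ (k : ℝ) = ‖G t‖ ^ (2 * (k : ℝ)) := by
      intro G t
      rw [Complex.norm_real, Real.norm_eq_abs, abs_of_nonneg (by positivity), ← Real.rpow_two,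
        ← Real.rpow_mul (norm_nonneg _)]
    have e4 : ∫ t in (a - u)..(b + u), ‖((‖ff lam t‖ ^ 2 : ℝ) : ℂ)‖ ^ (k : ℝ) ≤ n0 ^ (2 * (k : ℝ)) := by
      simp only [e3]
      rw [← nrm_pow hp0 (by linarith) (ff lam), nrm_ff]
      exact Real.rpow_le_rpow (nrm_nonneg (by linarith) _) hn1' hp0.le
    have e5 : nrm k (a - u) (b + u) (fun t => ((‖ff1 lam t‖ ^ 2 : ℝ) : ℂ)) ≤ (q * n0) ^ 2 := by
      unfold nrm
      simp only [e3]
      rw [← nrm_pow hp0 (by linarith) (ff1 lam), ← Real.rpow_mul (nrm_nonneg (by linarith) _)]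
      have e6 : 2 * (k : ℝ) * (1 / k) = 2 := by field_simp
      rw [e6, Real.rpow_two]
      exact pow_le_pow_left₀ (nrm_nonneg (by linarith) _) h1' 2
    have e7 : (∫ t in (a - u)..(b + u), ‖((‖ff lam t‖ ^ 2 : ℝ) : ℂ)‖ ^ (k : ℝ)) ^ (1 - 1 / (k : ℝ)) ≤
        n0 ^ (2 * (k : ℝ) - 2) := by
      have e8 : 0 ≤ 1 - 1 / (k : ℝ) := by
        rw [sub_nonneg, div_le_one hkp]
        exact hk0
      have e9 := Real.rpow_le_rpow (int_nonneg (by linarith) _) e4 e8
      rw [← Real.rpow_mul hn00] at e9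
      have e10 : 2 * (k : ℝ) * (1 - 1 / k) = 2 * k - 2 := by field_simp
      rwa [e10] at e9
    have hn0pos : 0 < n0 := lt_of_lt_of_le one_pos (hn1.trans hmono)
    calc (k : ℝ) ^ 2 * ∫ t in (a - u)..(b + u),
          ‖((‖ff lam t‖ ^ 2 : ℝ) : ℂ)‖ ^ ((k : ℝ) - 1) * ‖((‖ff1 lam t‖ ^ 2 : ℝ) : ℂ)‖
        ≤ (k : ℝ) ^ 2 * (n0 ^ (2 * (k : ℝ) - 2) * (q * n0) ^ 2) := by
          apply mul_le_mul_of_nonneg_left _ (by positivity)
          refine hH.trans (mul_le_mul e7 e5 (nrm_nonneg (by linarith) _) (by positivity))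
      _ = (k * q) ^ 2 * n0 ^ (2 * (k : ℝ)) := by
          rw [Real.rpow_sub hn0pos, Real.rpow_two]
          field_simp
  -- the identity
  have hid : (cexp (I * (k * α)) * S k α T a b).re =
      (M k (a + α / ℓ) (b + α / ℓ) + M k (a - α / ℓ) (b - α / ℓ)) / 2 -
        (∫ t in a..b, ‖F (t + α / ℓ) - F (t - α / ℓ)‖ ^ 2) / 2 := by
    unfold S
    rw [← intervalIntegral.integral_const_mul]
    have e1 : ∀ t : ℝ, cexp (I * (k * α)) *
        (riemannZeta (1 / 2 + I * α / Real.log T + I * t) ^ k *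
          riemannZeta (1 / 2 + I * α / Real.log T - I * t) ^ k) =
        F (t + α / ℓ) * (starRingEnd ℂ) (F (t - α / ℓ)) := by
      intro t
      rw [fac1 lam α T t, fac2 lam α T t, ← hℓ]
      simp only [hF]
      rw [map_pow, mul_pow, mul_pow, ← Complex.exp_nat_mul, ← Complex.exp_nat_mul]
      have e2 : cexp (I * (k * α)) * (cexp (k * (((-(lam * (t + α / ℓ)) : ℝ) : ℂ) * I)) *
          cexp (k * (((lam * (t - α / ℓ) : ℝ) : ℂ) * I))) = 1 := by
        rw [← Complex.exp_add, ← Complex.exp_add]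
        have e3 : I * (k * α) + (k * (((-(lam * (t + α / ℓ)) : ℝ) : ℂ) * I) +
            k * (((lam * (t - α / ℓ) : ℝ) : ℂ) * I)) = 0 := by
          have e4 : (α : ℂ) = ((2 * lam * (α / ℓ) : ℝ) : ℂ) := by
            congr 1
            rw [hlam]
            field_simp
          rw [e4]
          push_cast
          ring
        rw [e3, Complex.exp_zero]
      calc cexp (I * (k * α)) * (cexp (k * (((-(lam * (t + α / ℓ)) : ℝ) : ℂ) * I)) *
            ff lam (t + α / ℓ) ^ k * (cexp (k * (((lam * (t - α / ℓ) : ℝ) : ℂ) * I)) *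
            (starRingEnd ℂ) (ff lam (t - α / ℓ)) ^ k))
          = (cexp (I * (k * α)) * (cexp (k * (((-(lam * (t + α / ℓ)) : ℝ) : ℂ) * I)) *
            cexp (k * (((lam * (t - α / ℓ) : ℝ) : ℂ) * I)))) *
            (ff lam (t + α / ℓ) ^ k * (starRingEnd ℂ) (ff lam (t - α / ℓ)) ^ k) := by ring
        _ = _ := by rw [e2, one_mul]
    simp only [e1]
    have cx : Continuous fun t => F (t + α / ℓ) := hFc.comp (by fun_prop)
    have cy : Continuous fun t => F (t - α / ℓ) := hFc.comp (by fun_prop)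
    have e5 : (∫ t in a..b, F (t + α / ℓ) * (starRingEnd ℂ) (F (t - α / ℓ))).re =
        ∫ t in a..b, (F (t + α / ℓ) * (starRingEnd ℂ) (F (t - α / ℓ))).re := by
      have := Complex.reCLM.intervalIntegral_comp_comm
        ((cx.mul (Complex.continuous_conj.comp cy)).intervalIntegrable (μ := volume) a b)
      exact this.symm
    rw [e5]
    simp only [re_id]
    have j1 : Continuous fun t => ‖F (t + α / ℓ)‖ ^ 2 := cx.norm.pow 2
    have j2 : Continuous fun t => ‖F (t - α / ℓ)‖ ^ 2 := cy.norm.pow 2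
    have j3 : Continuous fun t => ‖F (t + α / ℓ) - F (t - α / ℓ)‖ ^ 2 := (cx.sub cy).norm.pow 2
    have j12 : Continuous fun t => ‖F (t + α / ℓ)‖ ^ 2 + ‖F (t - α / ℓ)‖ ^ 2 := j1.add j2
    rw [intervalIntegral.integral_div, intervalIntegral.integral_sub
      (j12.intervalIntegrable _ _) (j3.intervalIntegrable _ _),
      intervalIntegral.integral_add (j1.intervalIntegrable _ _) (j2.intervalIntegrable _ _)]
    have e6 : ∀ t, ‖F t‖ ^ 2 = ‖riemannZeta (1 / 2 + I * t)‖ ^ (2 * k) := by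
      intro t
      simp only [hF]
      rw [norm_pow, norm_ff, z_eq, ← pow_mul, mul_comm]
    have e7 : ∫ t in a..b, ‖F (t + α / ℓ)‖ ^ 2 = M k (a + α / ℓ) (b + α / ℓ) := by
      rw [intervalIntegral.integral_comp_add_right (fun t => ‖F t‖ ^ 2)]
      simp only [e6]
      rfl
    have e8 : ∫ t in a..b, ‖F (t - α / ℓ)‖ ^ 2 = M k (a - α / ℓ) (b - α / ℓ) := by
      rw [intervalIntegral.integral_comp_sub_right (fun t => ‖F t‖ ^ 2)]
      simp only [e6]
      rfl
    rw [e7, e8]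
    ring
  rw [hid]
  have hpos : 0 ≤ ∫ t in a..b, ‖F (t + α / ℓ) - F (t - α / ℓ)‖ ^ 2 :=
    intervalIntegral.integral_nonneg hab' fun t _ => by positivity
  refine ⟨by linarith, ?_⟩
  -- upper bound for the difference
  have hdiff : ∫ t in a..b, ‖F (t + α / ℓ) - F (t - α / ℓ)‖ ^ 2 ≤
      (2 * u) ^ 2 * ((k * q) ^ 2 * n0 ^ (2 * (k : ℝ))) := by
    have hsh := shift_le one_le_two hFd hF'c (a := a) (b := b) (u := u) (v := -u) hab' (by linarith)
    have e1 : ∫ t in a..b, ‖F (t + α / ℓ) - F (t - α / ℓ)‖ ^ 2 =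
        nrm 2 a b (fun t => F (t + u) - F (t + -u)) ^ (2 : ℝ) := by
      rw [nrm_pow two_pos hab']
      apply intervalIntegral.integral_congr
      intro t _
      simp only [Real.rpow_two]
      rcases abs_cases α with ⟨h, -⟩ | ⟨h, -⟩
      · have : u = α / ℓ := by rw [hu, h]
        rw [this, sub_eq_add_neg t]
      · have : u = -(α / ℓ) := by rw [hu, h]; ring
        rw [this, neg_neg, sub_eq_add_neg t, norm_sub_rev]
    rw [e1]
    have hsh2 := Real.rpow_le_rpow (nrm_nonneg hab' _) hsh (by norm_num : (0 : ℝ) ≤ 2)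
    refine hsh2.trans ?_
    rw [Real.mul_rpow (by linarith) (nrm_nonneg (by linarith) _), ← sub_eq_add_neg a]
    have e2 : (u - -u) ^ (2 : ℝ) = (2 * u) ^ 2 := by
      rw [Real.rpow_two]
      ring
    rw [e2]
    exact mul_le_mul_of_nonneg_left hL2 (by positivity)
  have hfin : (2 * u) ^ 2 * ((k * q) ^ 2 * n0 ^ (2 * (k : ℝ))) / 2 =
      (k * α) ^ 2 / 2 * (1 + 2 * C / ℓ) ^ 2 * M k (a - 2 * ℓ) (b + 2 * ℓ) := by
    rw [hMM _ _ (by linarith), ← hn0]
    have e1 : 2 * u * q = |α| * (1 + 2 * C / ℓ) := by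
      rw [hu, hq, hlam]
      field_simp
    calc (2 * u) ^ 2 * ((k * q) ^ 2 * n0 ^ (2 * (k : ℝ))) / 2
        = k ^ 2 * (2 * u * q) ^ 2 * n0 ^ (2 * (k : ℝ)) / 2 := by ring
      _ = _ := by
          rw [e1, mul_pow |α|, sq_abs]
          ring
  linarith

end Pool.Agent.Results.MP_069854_nt.SmallShifts
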